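import Mathlib

set_option autoImplicit false

namespace Pool.Agent.Lib.MP_be5e04_al

/-- The carry map between two consecutive levels. -/
def phi (P M : ℤ) (T : ℤ × ℤ × ℤ) : ℤ × ℤ × ℤ :=
  (T.1 / P, T.2.1 / P, (T.2.2 - (T.1 % P) * M * (T.2.1 / P)) / P)

/-- Index set of the primes used at one level. -/
abbrev Ind (m n : ℕ) : Type := Fin m × Fin m × Bool × Fin n

/-- The product of one of our points with a horizontal and vertical move. -/
def mv (m : ℕ) (X Y W x y a b c : ℤ) : ℤ × ℤ × ℤ :=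
  (X + a, Y + b, W + c + a * y - b * x + m * a * Y)

/-- The vertical residue which decides the background value. -/
def kap (m : ℕ) (X Y W x y a b : ℤ) : ℤ :=
  W + a * y - b * x + m * a * Y + m ^ 2 * (Y + b) ^ 2

/-- Few pairs `(a,b)` make an affine form divisible by `p`. -/
lemma card_affine {p P : ℕ} (hp : p.Prime) (hpP : p ∣ P) (A B C : ℤ)
    (hAB : ¬ ((p : ℤ) ∣ A ∧ (p : ℤ) ∣ B)) :
    ((Finset.range P ×ˢ Finset.range P).filter
      (fun ab : ℕ × ℕ => (p : ℤ) ∣ C + ab.1 * A + ab.2 * B)).card ≤ (P / p) * P := by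
  classical
  have hp' : Prime (p : ℤ) := Nat.prime_iff_prime_int.mp hp
  have hp0 : 0 < p := hp.pos
  -- division argument
  have key : ∀ (u v : ℕ) (D : ℤ), ¬ (p : ℤ) ∣ D → (p : ℤ) ∣ ((u : ℤ) - v) * D → u / p = v / p →
      u = v := by
    intro u v D hD hdvd huv
    have h1 : (p : ℤ) ∣ (u : ℤ) - v := by
      rcases hp'.dvd_or_dvd hdvd with h | h
      · exact h
      · exact absurd h hD
    have h2 : u % p = v % p := by
      have : (v : ℤ) ≡ u [ZMOD p] := (Int.modEq_iff_dvd).mpr h1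
      have := (Int.natCast_modEq_iff).mp this
      exact this.symm
    rw [← Nat.div_add_mod u p, ← Nat.div_add_mod v p, h2, huv]
  by_cases hA : (p : ℤ) ∣ A
  · have hB : ¬ (p : ℤ) ∣ B := fun h => hAB ⟨hA, h⟩
    have hcard : ((Finset.range (P / p) ×ˢ Finset.range P).card) = (P / p) * P := by simp
    rw [← hcard]
    apply Finset.card_le_card_of_injOn (fun ab : ℕ × ℕ => (ab.2 / p, ab.1))
    · rintro ⟨a, b⟩ hab
      simp only [Finset.coe_filter, Finset.mem_product, Finset.mem_range, Set.mem_ofPred_eq] at hab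
      simp only [Finset.coe_product, Finset.coe_range, Set.mem_prod, Set.mem_Iio]
      exact ⟨Nat.div_lt_div_of_lt_of_dvd hpP hab.1.2, hab.1.1⟩
    · rintro ⟨a, b⟩ hab ⟨a', b'⟩ hab' heq
      simp only [Finset.coe_filter, Finset.mem_product, Finset.mem_range, Set.mem_ofPred_eq] at hab hab'
      simp only [Prod.mk.injEq] at heq
      obtain ⟨h1, h2⟩ := heq
      subst h2
      have : b = b' := by
        apply key b b' B hB _ h1
        have := dvd_sub hab.2 hab'.2
        have e : (C + (a : ℤ) * A + b * B) - (C + a * A + b' * B) = ((b : ℤ) - b') * B := by ring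
        rwa [e] at this
      rw [this]
  · have hcard : ((Finset.range (P / p) ×ˢ Finset.range P).card) = (P / p) * P := by simp
    rw [← hcard]
    apply Finset.card_le_card_of_injOn (fun ab : ℕ × ℕ => (ab.1 / p, ab.2))
    · rintro ⟨a, b⟩ hab
      simp only [Finset.coe_filter, Finset.mem_product, Finset.mem_range, Set.mem_ofPred_eq] at hab
      simp only [Finset.coe_product, Finset.coe_range, Set.mem_prod, Set.mem_Iio]
      exact ⟨Nat.div_lt_div_of_lt_of_dvd hpP hab.1.1, hab.1.2⟩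
    · rintro ⟨a, b⟩ hab ⟨a', b'⟩ hab' heq
      simp only [Finset.coe_filter, Finset.mem_product, Finset.mem_range, Set.mem_ofPred_eq] at hab hab'
      simp only [Prod.mk.injEq] at heq
      obtain ⟨h1, h2⟩ := heq
      subst h2
      have : a = a' := by
        apply key a a' A hA _ h1
        have := dvd_sub hab.2 hab'.2
        have e : (C + (a : ℤ) * A + b * B) - (C + a' * A + b * B) = ((a : ℤ) - a') * A := by ring
        rwa [e] at this
      rw [this]

/-- The generic condition for a pair of points fails for few pairs `(a,b)`. -/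
lemma card_generic {m p P : ℕ} (hm : 0 < m) (hp : p.Prime) (hpP : p ∣ P) (hpm : 2 * m ^ 2 ≤ p)
    (X Y W X' Y' W' : ℤ) (x y x' y' : ℤ) (hx : 0 ≤ x ∧ x < m) (hy : 0 ≤ y ∧ y < m)
    (hx' : 0 ≤ x' ∧ x' < m) (hy' : 0 ≤ y' ∧ y' < m) (hne : ¬ (x = x' ∧ y = y')) :
    ((Finset.range P ×ˢ Finset.range P).filter
      (fun ab : ℕ × ℕ => (p : ℤ) ∣ kap m X Y W x y ab.1 ab.2 - kap m X' Y' W' x' y' ab.1 ab.2)).card
      ≤ (P / p) * P := by
  classical
  have hp' : Prime (p : ℤ) := Nat.prime_iff_prime_int.mp hp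
  have e : ∀ ab : ℕ × ℕ, kap m X Y W x y ab.1 ab.2 - kap m X' Y' W' x' y' ab.1 ab.2 =
      (W - W' + m ^ 2 * Y ^ 2 - m ^ 2 * Y' ^ 2) + ab.1 * ((y - y') + m * (Y - Y')) +
        ab.2 * (-(x - x') + 2 * m ^ 2 * (Y - Y')) := by
    intro ab; unfold kap; ring
  simp only [e]
  apply card_affine hp hpP
  rintro ⟨h1, h2⟩
  -- eliminate Y - Y'
  have h3 : (p : ℤ) ∣ 2 * m * (y - y') + (x - x') := by
    have := dvd_sub (Dvd.dvd.mul_left h1 (2 * (m : ℤ))) h2
    have e2 : 2 * (m : ℤ) * ((y - y') + m * (Y - Y')) - (-(x - x') + 2 * m ^ 2 * (Y - Y')) =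
      2 * m * (y - y') + (x - x') := by ring
    rwa [e2] at this
  have hmz : (0 : ℤ) < m := by exact_mod_cast hm
  have hpmz : 2 * (m : ℤ) ^ 2 ≤ p := by exact_mod_cast hpm
  have h4 : 2 * (m : ℤ) * (y - y') + (x - x') = 0 := by
    apply Int.eq_zero_of_abs_lt_dvd h3
    rw [abs_lt]
    have hb1 : y - y' ≤ m - 1 := by omega
    have hb2 : -(m - 1 : ℤ) ≤ y - y' := by omega
    have hb3 : x - x' ≤ m - 1 := by omega
    have hb4 : -(m - 1 : ℤ) ≤ x - x' := by omega
    constructor
    · nlinarith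
    · nlinarith
  have h5 : y - y' = 0 := by
    by_contra h6
    rcases lt_or_gt_of_ne h6 with h7 | h7
    · have : y - y' ≤ -1 := by omega
      nlinarith
    · have : 1 ≤ y - y' := by omega
      nlinarith
  rw [h5] at h4
  exact hne ⟨by linarith, by linarith⟩

end Pool.Agent.Lib.MP_be5e04_al
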