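import Mathlib

set_option autoImplicit false

namespace Pool.Agent.Lib.MP_be5e04_al

/-! The Stone-Cech compactification of a discrete group `G` is `Ultrafilter G` with Mathlib's
topology; its multiplication is Mathlib's `Ultrafilter.mul`, for which `p ↦ p * q` is continuous
for every fixed `q`. -/

attribute [local instance] Ultrafilter.mul

/-- `R ⊆ βG` is a right ideal: it is nonempty and `R * βG ⊆ R`. -/
def IsRightIdeal {G : Type*} [Group G] (R : Set (Ultrafilter G)) : Prop :=
  R.Nonempty ∧ ∀ p ∈ R, ∀ q : Ultrafilter G, p * q ∈ R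

/-- `R ⊆ βG` is a minimal closed right ideal: a closed right ideal which contains no strictly
smaller closed right ideal. -/
def IsMinimalClosedRightIdeal {G : Type*} [Group G] (R : Set (Ultrafilter G)) : Prop :=
  IsClosed R ∧ IsRightIdeal R ∧
    ∀ R' : Set (Ultrafilter G), IsClosed R' → IsRightIdeal R' → R' ⊆ R → R' = R

/-- A group is virtually abelian if it has an abelian subgroup of finite index. -/
def IsVirtuallyAbelian (G : Type*) [Group G] : Prop :=
  ∃ A : Subgroup G, A.FiniteIndex ∧ ∀ a ∈ A, ∀ b ∈ A, a * b = b * a

end Pool.Agent.Lib.MP_be5e04_al
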