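import Mathlib
import Pool.Agent.Lib.MP_be5e04_al.Count

set_option autoImplicit false

namespace Pool.Agent.Lib.MP_be5e04_al

/-- The box which contains all tiles met by the moved points. -/
noncomputable def tileBox (m P : ℕ) (X Y W : ℤ) : Finset (ℤ × ℤ × ℤ) :=
  (({X / P, X / P + 1} : Finset ℤ) ×ˢ ({Y / P, Y / P + 1} : Finset ℤ)).biUnion fun uv =>
    (Finset.Icc ((W - X * (m * P) * uv.2 + P * uv.1 * (m * P) * uv.2) / P - (m + m * P))
      ((W - X * (m * P) * uv.2 + P * uv.1 * (m * P) * uv.2) / P + (1 + m + m * P))).image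
      fun w => (uv.1, uv.2, w)

lemma card_tileBox (m P : ℕ) (X Y W : ℤ) :
    (tileBox m P X Y W).card ≤ 4 * (2 * m + 2 * (m * P) + 2) := by
  classical
  unfold tileBox
  refine Finset.card_biUnion_le.trans ?_
  have h1 : ∀ uv ∈ (({X / P, X / P + 1} : Finset ℤ) ×ˢ ({Y / P, Y / P + 1} : Finset ℤ)),
      ((Finset.Icc ((W - X * (m * P) * uv.2 + P * uv.1 * (m * P) * uv.2) / P - (m + m * P))
      ((W - X * (m * P) * uv.2 + P * uv.1 * (m * P) * uv.2) / P + (1 + m + m * P))).image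
      fun w => (uv.1, uv.2, w)).card ≤ 2 * m + 2 * (m * P) + 2 := by
    intro uv _
    refine Finset.card_image_le.trans ?_
    rw [Int.card_Icc]
    have : ((W - X * (m * P) * uv.2 + P * uv.1 * (m * P) * uv.2) / P + (1 + m + m * P) + 1 -
        ((W - X * (m * P) * uv.2 + P * uv.1 * (m * P) * uv.2) / P - (m + m * P))) =
        ((2 * m + 2 * (m * P) + 2 : ℕ) : ℤ) := by
      push_cast; ring
    rw [this, Int.toNat_natCast]
  refine (Finset.sum_le_sum h1).trans ?_
  rw [Finset.sum_const, smul_eq_mul, Finset.card_product]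
  have h2 : ({X / (P : ℤ), X / P + 1} : Finset ℤ).card ≤ 2 := Finset.card_le_two
  have h3 : ({Y / (P : ℤ), Y / P + 1} : Finset ℤ).card ≤ 2 := Finset.card_le_two
  exact Nat.mul_le_mul_right _ (Nat.mul_le_mul h2 h3)

lemma mem_tileBox {m P : ℕ} (hm : 0 < m) (hP : 0 < P) (X Y W x y : ℤ) (hx : 0 ≤ x ∧ x < m)
    (hy : 0 ≤ y ∧ y < m) (a b c : ℕ) (ha : a < P) (hb : b < P) (hc : c < P) :
    phi P (m * P) (mv m X Y W x y a b c) ∈ tileBox m P X Y W := by
  classical
  have hPz : (0 : ℤ) < P := by exact_mod_cast hP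
  have hmz : (0 : ℤ) < m := by exact_mod_cast hm
  have haz : (a : ℤ) < P := by exact_mod_cast ha
  have hbz : (b : ℤ) < P := by exact_mod_cast hb
  have hcz : (c : ℤ) < P := by exact_mod_cast hc
  have ha0 : (0 : ℤ) ≤ a := by positivity
  have hb0 : (0 : ℤ) ≤ b := by positivity
  have hc0 : (0 : ℤ) ≤ c := by positivity
  unfold tileBox phi mv
  simp only [Finset.mem_biUnion, Finset.mem_image, Finset.mem_product, Finset.mem_insert,
    Finset.mem_singleton, Finset.mem_Icc, Prod.exists]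
  have key : ∀ (Z : ℤ) (e : ℤ), 0 ≤ e → e < P → (Z + e) / (P : ℤ) = Z / P ∨
      (Z + e) / (P : ℤ) = Z / P + 1 := by
    intro Z e he0 heP
    have h1 : Z / P ≤ (Z + e) / P := Int.ediv_le_ediv hPz (by linarith)
    have h2 : (Z + e) / P ≤ (Z + 1 * P) / P := Int.ediv_le_ediv hPz (by linarith)
    rw [Int.add_mul_ediv_right _ _ hPz.ne'] at h2
    omega
  refine ⟨(X + a) / P, (Y + b) / P, ⟨key X a ha0 haz, key Y b hb0 hbz⟩,
    (W + c + a * y - b * x + m * a * Y - (X + a) % P * (m * P) * ((Y + b) / P)) / P, ?_, rfl⟩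
  set u := (X + a) / (P : ℤ) with hu
  set v := (Y + b) / (P : ℤ) with hv
  set ρ := (Y + b) % (P : ℤ) with hρ
  have hρ0 : 0 ≤ ρ := Int.emod_nonneg _ hPz.ne'
  have hρP : ρ < P := Int.emod_lt_of_pos _ hPz
  have e1 : (X + a) % (P : ℤ) = X + a - P * u := by
    rw [hu]; have := Int.emod_add_mul_ediv (X + a) (P : ℤ); linarith
  have e2 : Y = P * v + ρ - b := by
    rw [hv, hρ]; have := Int.emod_add_mul_ediv (Y + b) (P : ℤ); linarith
  have e3 : W + c + a * y - b * x + m * a * Y - (X + a) % P * (m * P) * v =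
      (W - X * (m * P) * v + P * u * (m * P) * v) +
        (c + a * y - b * x + m * a * (ρ - b)) := by
    rw [e1]
    have : (m : ℤ) * a * Y = m * a * (P * v) + m * a * (ρ - b) := by
      rw [e2]; ring
    rw [this]; ring
  rw [e3]
  set K := (W - X * (m * P) * v + P * u * (m * P) * v) with hK
  have l1 : 0 ≤ (a : ℤ) * y := by nlinarith [hy.1]
  have l2 : (a : ℤ) * y ≤ P * m := by nlinarith [hy.1, hy.2]
  have l3 : 0 ≤ (b : ℤ) * x := by nlinarith [hx.1]
  have l4 : (b : ℤ) * x ≤ P * m := by nlinarith [hx.1, hx.2]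
  have l5 : (m : ℤ) * a * (ρ - b) ≤ P * (m * P) := by
    have h1 : (m : ℤ) * a * (ρ - b) ≤ m * a * P := by
      apply mul_le_mul_of_nonneg_left _ (by positivity)
      linarith
    have h2 : (m : ℤ) * a * P ≤ m * P * P := by
      apply mul_le_mul_of_nonneg_right _ (by positivity)
      apply mul_le_mul_of_nonneg_left haz.le (by positivity)
    linarith
  have l6 : -(P * (m * P) : ℤ) ≤ (m : ℤ) * a * (ρ - b) := by
    have h1 : (m : ℤ) * a * (b - ρ) ≤ m * a * P := by
      apply mul_le_mul_of_nonneg_left _ (by positivity)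
      linarith
    have h2 : (m : ℤ) * a * P ≤ m * P * P := by
      apply mul_le_mul_of_nonneg_right _ (by positivity)
      apply mul_le_mul_of_nonneg_left haz.le (by positivity)
    linarith
  constructor
  · have h1 : K + P * (-(m + m * P)) ≤ K + (c + a * y - b * x + m * a * (ρ - b)) := by linarith
    have h2 := Int.ediv_le_ediv hPz h1
    rw [Int.add_mul_ediv_left _ _ hPz.ne'] at h2
    linarith
  · have h1 : K + (c + a * y - b * x + m * a * (ρ - b)) ≤ K + P * (1 + m + m * P) := by linarith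
    have h2 := Int.ediv_le_ediv hPz h1
    rw [Int.add_mul_ediv_left _ _ hPz.ne'] at h2
    linarith

/-- The special case occurs for few horizontal moves. -/
lemma card_special {m P : ℕ} (hm : 0 < m) (hP : 0 < P) (X Y W x y : ℤ) (hx : 0 ≤ x ∧ x < m)
    (hy : 0 ≤ y ∧ y < m) (f : ℤ × ℤ × ℤ → ℤ × ℤ)
    (D : ℕ × ℕ → Prop) [DecidablePred D]
    (hD : ∀ ab, D ab → ∃ c < P, f (phi P (m * P) (mv m X Y W x y ab.1 ab.2 (c : ℕ))) =
      ((X + ab.1) % P, (Y + ab.2) % P)) :
    ((Finset.range P ×ˢ Finset.range P).filter D).card ≤ 4 * (2 * m + 2 * (m * P) + 2) := by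
  classical
  refine le_trans ?_ (card_tileBox m P X Y W)
  have hch : ∀ ab : ℕ × ℕ, ∃ c : ℕ, D ab → c < P ∧
      f (phi P (m * P) (mv m X Y W x y ab.1 ab.2 (c : ℕ))) = ((X + ab.1) % P, (Y + ab.2) % P) := by
    intro ab
    by_cases h : D ab
    · obtain ⟨c, hc⟩ := hD ab h
      exact ⟨c, fun _ => hc⟩
    · exact ⟨0, fun h' => absurd h' h⟩
  choose c hc using hch
  apply Finset.card_le_card_of_injOn
    (fun ab : ℕ × ℕ => phi P (m * P) (mv m X Y W x y ab.1 ab.2 (c ab : ℕ)))
  · rintro ⟨a, b⟩ hab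
    simp only [Finset.coe_filter, Finset.mem_product, Finset.mem_range, Set.mem_ofPred_eq] at hab
    exact mem_tileBox hm hP X Y W x y hx hy a b _ hab.1.1 hab.1.2 (hc _ hab.2).1
  · rintro ⟨a, b⟩ hab ⟨a', b'⟩ hab' heq
    simp only [Finset.coe_filter, Finset.mem_product, Finset.mem_range, Set.mem_ofPred_eq] at hab hab'
    have h1 := (hc _ hab.2).2
    have h2 := (hc _ hab'.2).2
    simp only at heq
    simp only at h1 h2
    rw [heq, h2] at h1
    simp only [Prod.mk.injEq] at h1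
    have key : ∀ (Z : ℤ) (u v : ℕ), u < P → v < P → (Z + v) % (P : ℤ) = (Z + u) % P → u = v := by
      intro Z u v hu hv huv
      have h3 : (P : ℤ) ∣ (u : ℤ) - v := by
        have h4 : (P : ℤ) ∣ (Z + u) - (Z + v) := (Int.modEq_iff_dvd).mp huv
        have h5 : (Z + u) - (Z + v) = (u : ℤ) - v := by ring
        rwa [h5] at h4
      have h4 : (u : ℤ) - v = 0 := by
        apply Int.eq_zero_of_abs_lt_dvd h3
        rw [abs_lt]
        constructor <;> omega
      omega
    rw [key X a a' hab.1.1 hab'.1.1 h1.1, key Y b b' hab.1.2 hab'.1.2 h1.2]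

end Pool.Agent.Lib.MP_be5e04_al
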