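import Mathlib
import Pool.Agent.Lib.MP_be5e04_al.Special

set_option autoImplicit false

namespace Pool.Agent.Lib.MP_be5e04_al

open scoped Classical in
/-- Background value at a tile. -/
noncomputable def bg (m n : ℕ) (p : Ind m n → ℕ) (T : ℤ × ℤ × ℤ) : ℤ × ℤ × Bool :=
  if h : ∃ j : Ind m n, (p j : ℤ) ∣ T.2.2 + m ^ 2 * T.2.1 ^ 2 then
    (((h.choose.1 : ℕ) : ℤ), ((h.choose.2.1 : ℕ) : ℤ), h.choose.2.2.1)
  else (0, 0, false)

open scoped Classical in
/-- One downward step of the hierarchy. -/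
noncomputable def step (m n P : ℕ) (p : Ind m n → ℕ) (σ : ℤ × ℤ × ℤ → ℤ × ℤ × Bool)
    (T : ℤ × ℤ × ℤ) : ℤ × ℤ × Bool :=
  if (σ (phi P (m * P) T)).1 / m = T.1 % P ∧ (σ (phi P (m * P) T)).2.1 / m = T.2.1 % P then
    ((σ (phi P (m * P) T)).1 % m, (σ (phi P (m * P) T)).2.1 % m, (σ (phi P (m * P) T)).2.2)
  else bg m n p T

/-- The size bound on the primes. -/
def bound (m n : ℕ) : ℕ := 4 * Fintype.card (Ind m n) * n ^ 2 + 48 * n * m + 2 * m ^ 2 + n + 1

lemma kap_eq (m : ℕ) (X Y W x y a b c : ℤ) :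
    (mv m X Y W x y a b c).2.2 + m ^ 2 * (mv m X Y W x y a b c).2.1 ^ 2 =
      c + kap m X Y W x y a b := by
  unfold mv kap; ring

/-- Choice of the horizontal move. -/
lemma exists_ab {m n P : ℕ} (hm : 0 < m) (hn : 0 < n) (p : Ind m n → ℕ)
    (hp : ∀ j, (p j).Prime) (hB : ∀ j, bound m n ≤ p j) (hpP : ∀ j, p j ∣ P) (hP : 0 < P)
    (σ : ℤ × ℤ × ℤ → ℤ × ℤ × Bool) (X Y W : Fin n → ℤ) (x y : Fin n → Fin m) :
    ∃ a b : ℕ, a < P ∧ b < P ∧
      (∀ j i i', ¬ (x i = x i' ∧ y i = y i') →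
        ¬ (p j : ℤ) ∣ kap m (X i) (Y i) (W i) (x i : ℕ) (y i : ℕ) a b -
          kap m (X i') (Y i') (W i') (x i' : ℕ) (y i' : ℕ) a b) ∧
      (∀ i, ∀ c : ℕ, c < P → ¬ (
        (σ (phi P (m * P) (mv m (X i) (Y i) (W i) (x i : ℕ) (y i : ℕ) a b c))).1 / m =
          (X i + a) % P ∧
        (σ (phi P (m * P) (mv m (X i) (Y i) (W i) (x i : ℕ) (y i : ℕ) a b c))).2.1 / m =
          (Y i + b) % P)) := by
  classical
  -- a witness index for the size of P
  have hJ : Nonempty (Ind m n) := ⟨(⟨0, hm⟩, ⟨0, hm⟩, false, ⟨0, hn⟩)⟩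
  obtain ⟨j0⟩ := hJ
  have hPB : bound m n ≤ P := (hB j0).trans (Nat.le_of_dvd hP (hpP j0))
  set box := Finset.range P ×ˢ Finset.range P with hbox
  let G : Ind m n → Fin n → Fin n → Finset (ℕ × ℕ) := fun j i i' =>
    if ¬ (x i = x i' ∧ y i = y i') then box.filter (fun ab =>
      (p j : ℤ) ∣ kap m (X i) (Y i) (W i) (x i : ℕ) (y i : ℕ) ab.1 ab.2 -
          kap m (X i') (Y i') (W i') (x i' : ℕ) (y i' : ℕ) ab.1 ab.2) else ∅
  let N : Fin n → Finset (ℕ × ℕ) := fun i => box.filter (fun ab => ∃ c : ℕ, c < P ∧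
        (σ (phi P (m * P) (mv m (X i) (Y i) (W i) (x i : ℕ) (y i : ℕ) ab.1 ab.2 c))).1 / m =
          (X i + ab.1) % P ∧
        (σ (phi P (m * P) (mv m (X i) (Y i) (W i) (x i : ℕ) (y i : ℕ) ab.1 ab.2 c))).2.1 / m =
          (Y i + ab.2) % P)
  have hxr : ∀ i, 0 ≤ ((x i : ℕ) : ℤ) ∧ ((x i : ℕ) : ℤ) < m := fun i =>
    ⟨by positivity, by exact_mod_cast (x i).2⟩
  have hyr : ∀ i, 0 ≤ ((y i : ℕ) : ℤ) ∧ ((y i : ℕ) : ℤ) < m := fun i =>
    ⟨by positivity, by exact_mod_cast (y i).2⟩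
  have hGcard : ∀ j i i', bound m n * (G j i i').card ≤ P * P := by
    intro j i i'
    simp only [G]
    by_cases h : ¬ (x i = x i' ∧ y i = y i')
    · rw [if_pos h]
      have h1 := card_generic hm (hp j) (hpP j) (by
        have := hB j; unfold bound at this; nlinarith) (X i) (Y i) (W i) (X i') (Y i') (W i')
        (x i : ℕ) (y i : ℕ) (x i' : ℕ) (y i' : ℕ) (hxr i) (hyr i) (hxr i') (hyr i') (by
          rintro ⟨h1, h2⟩
          apply h
          constructor
          · apply Fin.ext; exact_mod_cast h1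
          · apply Fin.ext; exact_mod_cast h2)
      calc _ ≤ (p j) * ((P / p j) * P) := Nat.mul_le_mul (hB j) h1
        _ = ((p j) * (P / p j)) * P := by ring
        _ = P * P := by rw [Nat.mul_div_cancel' (hpP j)]
    · rw [if_neg h]; simp
  have hNcard : ∀ i, (N i).card ≤ 4 * (2 * m + 2 * (m * P) + 2) := by
    intro i
    apply card_special hm hP (X i) (Y i) (W i) (x i : ℕ) (y i : ℕ) (hxr i) (hyr i)
      (fun T => ((σ T).1 / m, (σ T).2.1 / m))
    rintro ab ⟨c, hc, h1, h2⟩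
    exact ⟨c, hc, by simp only [Prod.mk.injEq]; exact ⟨h1, h2⟩⟩
  let bad : Finset (ℕ × ℕ) := (Finset.univ.biUnion fun j => Finset.univ.biUnion fun i =>
    Finset.univ.biUnion fun i' => G j i i') ∪ (Finset.univ.biUnion fun i => N i)
  have hbad : bad.card < (box).card := by
    have h1 : bad.card ≤ (∑ j, ∑ i, ∑ i', (G j i i').card) + ∑ i, (N i).card := by
      refine (Finset.card_union_le _ _).trans (add_le_add ?_ Finset.card_biUnion_le)
      refine Finset.card_biUnion_le.trans (Finset.sum_le_sum fun j _ => ?_)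
      refine Finset.card_biUnion_le.trans (Finset.sum_le_sum fun i _ => ?_)
      exact Finset.card_biUnion_le
    have h2 : bound m n * (∑ j, ∑ i, ∑ i', (G j i i').card) ≤
        Fintype.card (Ind m n) * n ^ 2 * (P * P) := by
      rw [Finset.mul_sum]
      have : ∀ j ∈ (Finset.univ : Finset (Ind m n)),
          bound m n * (∑ i, ∑ i', (G j i i').card) ≤ n ^ 2 * (P * P) := by
        intro j _
        rw [Finset.mul_sum]
        have h3 : ∀ i ∈ (Finset.univ : Finset (Fin n)),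
          bound m n * (∑ i', (G j i i').card) ≤ n * (P * P) := by
          intro i _
          rw [Finset.mul_sum]
          refine (Finset.sum_le_sum fun i' _ => hGcard j i i').trans ?_
          simp
        refine (Finset.sum_le_sum h3).trans ?_
        simp only [Finset.sum_const, Finset.card_univ, Fintype.card_fin, smul_eq_mul]
        apply le_of_eq; ring
      refine (Finset.sum_le_sum this).trans ?_
      simp only [Finset.sum_const, Finset.card_univ, smul_eq_mul]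
      apply le_of_eq; ring
    have h3 : ∑ i, (N i).card ≤ n * (4 * (2 * m + 2 * (m * P) + 2)) := by
      refine (Finset.sum_le_sum fun i _ => hNcard i).trans ?_
      simp
    have h4 : box.card = P * P := by simp [hbox]
    rw [h4]
    set SG := ∑ j, ∑ i, ∑ i', (G j i i').card with hSG
    set SN := ∑ i, (N i).card with hSN
    set K := Fintype.card (Ind m n) with hK
    have hK0 : 0 < K := Fintype.card_pos_iff.mpr ⟨j0⟩
    have h5 : 4 * SG ≤ P * P := by
      have h6 : (K * n ^ 2) * (4 * SG) ≤ (K * n ^ 2) * (P * P) := by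
        calc (K * n ^ 2) * (4 * SG) = (4 * K * n ^ 2) * SG := by ring
          _ ≤ bound m n * SG := by
            apply Nat.mul_le_mul_right
            change 4 * Fintype.card (Ind m n) * n ^ 2 ≤ bound m n
            unfold bound
            omega
          _ ≤ _ := h2
      exact Nat.le_of_mul_le_mul_left h6 (by positivity)
    have h7 : 2 * SN < P * P := by
      have hPn : 48 * n * m < P := by
        unfold bound at hPB
        have : 0 ≤ 4 * Fintype.card (Ind m n) * n ^ 2 := Nat.zero_le _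
        omega
      have h8 : 4 * (2 * m + 2 * (m * P) + 2) ≤ 24 * m * P := by
        have h9 : m ≤ m * P := Nat.le_mul_of_pos_right m hP
        have h10 : 1 ≤ m * P := Nat.mul_pos hm hP
        calc 4 * (2 * m + 2 * (m * P) + 2) ≤ 4 * (2 * (m * P) + 2 * (m * P) + 2 * (m * P)) := by
              omega
          _ = 24 * m * P := by ring
      calc 2 * SN ≤ 2 * (n * (24 * m * P)) := by
            apply Nat.mul_le_mul_left
            exact h3.trans (Nat.mul_le_mul_left _ h8)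
        _ = (48 * n * m) * P := by ring
        _ < P * P := Nat.mul_lt_mul_of_pos_right hPn hP
    omega
  obtain ⟨ab, hab1, hab2⟩ := Finset.exists_mem_notMem_of_card_lt_card hbad
  simp only [hbox, Finset.mem_product, Finset.mem_range] at hab1
  simp only [bad, Finset.mem_union, Finset.mem_biUnion, Finset.mem_univ, true_and, not_or,
    not_exists] at hab2
  refine ⟨ab.1, ab.2, hab1.1, hab1.2, ?_, ?_⟩
  · intro j i i' hne hdvd
    apply hab2.1 j i i'
    simp only [G]
    rw [if_pos hne]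
    simp only [hbox, Finset.mem_filter, Finset.mem_product, Finset.mem_range]
    exact ⟨hab1, hdvd⟩
  · intro i c hc hh
    apply hab2.2 i
    simp only [N, hbox, Finset.mem_filter, Finset.mem_product, Finset.mem_range]
    exact ⟨hab1, c, hc, hh⟩

/-- Choice of a residue avoiding few values. -/
lemma exists_avoid {p n : ℕ} (hp : n < p) (f : Fin n → ℤ) :
    ∃ c : ℤ, ∀ i, ¬ (p : ℤ) ∣ c + f i := by
  classical
  by_contra hno
  push Not at hno
  have hno' : ∀ c : Fin p, ∃ i, (p : ℤ) ∣ ((c : ℕ) : ℤ) + f i := fun c => hno _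
  choose i hi using hno'
  have hinj : Function.Injective i := by
    intro c d hcd
    have h1 := hi c
    have h2 := hi d
    rw [hcd] at h1
    have h3 := dvd_sub h1 h2
    have h4 : (((c : ℕ) : ℤ) + f (i d)) - (((d : ℕ) : ℤ) + f (i d)) = ((c : ℕ) : ℤ) - ((d : ℕ) : ℤ) := by
      ring
    rw [h4] at h3
    have h5 : ((c : ℕ) : ℤ) - ((d : ℕ) : ℤ) = 0 := by
      apply Int.eq_zero_of_abs_lt_dvd h3
      rw [abs_lt]
      have := c.2
      have := d.2
      constructor <;> omega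
    apply Fin.ext
    omega
  have := Fintype.card_le_of_injective i hinj
  simp at this
  omega

/-- Chinese remaindering for a family of distinct primes. -/
lemma exists_crt {ι : Type*} [Fintype ι] (p : ι → ℕ) (hp : ∀ j, (p j).Prime)
    (hinj : Function.Injective p) (f : ι → ℤ) :
    ∃ c : ℕ, c < ∏ j, p j ∧ ∀ j, (p j : ℤ) ∣ (c : ℤ) - f j := by
  classical
  have hpos : 0 < ∏ j, p j := Finset.prod_pos fun j _ => (hp j).pos
  have hco : Set.Pairwise ((Finset.univ : Finset ι) : Set ι)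
      (Function.onFun Nat.Coprime p) := by
    intro i _ j _ hij
    exact (Nat.coprime_primes (hp i) (hp j)).mpr (fun h => hij (hinj h))
  let g : ι → ℕ := fun j => (f j % (p j : ℤ)).toNat
  obtain ⟨k, hk⟩ := Nat.chineseRemainderOfFinset g p Finset.univ (fun i _ => (hp i).ne_zero) hco
  refine ⟨k % ∏ j, p j, Nat.mod_lt _ hpos, ?_⟩
  intro j
  have h1 : k ≡ g j [MOD p j] := hk j (Finset.mem_univ j)
  have h2 : k % (∏ j, p j) ≡ k [MOD p j] :=
    (Nat.mod_modEq k _).of_dvd (Finset.dvd_prod_of_mem p (Finset.mem_univ j))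
  have h3 : (k % (∏ j, p j) : ℕ) ≡ g j [MOD p j] := h2.trans h1
  have h4 : ((k % (∏ j, p j) : ℕ) : ℤ) ≡ (g j : ℤ) [ZMOD p j] := (Int.natCast_modEq_iff).mpr h3
  have h5 : (g j : ℤ) ≡ f j [ZMOD p j] := by
    simp only [g]
    rw [Int.toNat_of_nonneg (Int.emod_nonneg _ (by exact_mod_cast (hp j).ne_zero))]
    exact Int.mod_modEq _ _
  exact (h4.trans h5).symm.dvd

/-- The main lemma: one level of the hierarchy handles all `n`-tuples of points. -/
lemma main_step {m n P : ℕ} (hm : 0 < m) (hn : 0 < n) (p : Ind m n → ℕ)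
    (hp : ∀ j, (p j).Prime) (hinj : Function.Injective p) (hB : ∀ j, bound m n ≤ p j)
    (hPp : P = ∏ j, p j)
    (σ : ℤ × ℤ × ℤ → ℤ × ℤ × Bool) (X Y W : Fin n → ℤ) (x y : Fin n → Fin m) (ε : Bool) :
    ∃ a b c : ℕ, a < P ∧ b < P ∧ c < P ∧
      ∀ i, step m n P p σ (mv m (X i) (Y i) (W i) (x i : ℕ) (y i : ℕ) a b c) =
        (((x i : ℕ) : ℤ), ((y i : ℕ) : ℤ), ε) := by
  classical
  have hP : 0 < P := by rw [hPp]; exact Finset.prod_pos fun j _ => (hp j).pos
  have hpP : ∀ j, p j ∣ P := by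
    intro j; rw [hPp]; exact Finset.dvd_prod_of_mem p (Finset.mem_univ j)
  obtain ⟨a, b, ha, hb, hG, hN⟩ := exists_ab hm hn p hp hB hpP hP σ X Y W x y
  let κ : Fin n → ℤ := fun i => kap m (X i) (Y i) (W i) (x i : ℕ) (y i : ℕ) a b
  -- residues for the central direction
  have hres : ∀ j : Ind m n, ∃ c : ℤ,
      ((j.1 = x j.2.2.2 ∧ j.2.1 = y j.2.2.2 ∧ j.2.2.1 = ε) → c = - κ j.2.2.2) ∧
      (¬ (j.1 = x j.2.2.2 ∧ j.2.1 = y j.2.2.2 ∧ j.2.2.1 = ε) → ∀ i, ¬ (p j : ℤ) ∣ c + κ i) := by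
    intro j
    by_cases h : j.1 = x j.2.2.2 ∧ j.2.1 = y j.2.2.2 ∧ j.2.2.1 = ε
    · exact ⟨- κ j.2.2.2, fun _ => rfl, fun h' => absurd h h'⟩
    · have hnp : n < p j := by
        have := hB j
        unfold bound at this
        have h0 : 0 ≤ 4 * Fintype.card (Ind m n) * n ^ 2 := Nat.zero_le _
        omega
      obtain ⟨c, hc⟩ := exists_avoid hnp κ
      exact ⟨c, fun h' => absurd h' h, fun _ => hc⟩
  choose f hf1 hf2 using hres
  obtain ⟨c, hcP, hc⟩ := exists_crt p hp hinj f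
  refine ⟨a, b, c, ha, hb, by rw [hPp]; exact hcP, ?_⟩
  intro i
  have hdvd : ∀ j i, (p j : ℤ) ∣ (c : ℤ) + κ i ↔ (p j : ℤ) ∣ f j + κ i := by
    intro j i
    have h1 : (c : ℤ) + κ i = ((c : ℤ) - f j) + (f j + κ i) := by ring
    rw [h1]
    exact dvd_add_right (hc j)
  unfold step
  have hspec := hN i c (by rw [hPp]; exact hcP)
  rw [if_neg (by simpa [mv] using hspec)]
  unfold bg
  have hex : ∃ j : Ind m n, (p j : ℤ) ∣
      (mv m (X i) (Y i) (W i) (x i : ℕ) (y i : ℕ) a b c).2.2 +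
      m ^ 2 * (mv m (X i) (Y i) (W i) (x i : ℕ) (y i : ℕ) a b c).2.1 ^ 2 := by
    refine ⟨(x i, y i, ε, i), ?_⟩
    rw [kap_eq]
    change (p (x i, y i, ε, i) : ℤ) ∣ (c : ℤ) + κ i
    rw [hdvd, hf1 (x i, y i, ε, i) ⟨rfl, rfl, rfl⟩]
    simp
  rw [dif_pos hex]
  have hj := hex.choose_spec
  set j := hex.choose with hjdef
  rw [kap_eq] at hj
  have hj' : (p j : ℤ) ∣ f j + κ i := (hdvd j i).mp hj
  have hcase : j.1 = x j.2.2.2 ∧ j.2.1 = y j.2.2.2 ∧ j.2.2.1 = ε := by
    by_contra h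
    exact hf2 j h i hj'
  have hfj := hf1 j hcase
  rw [hfj] at hj'
  have hxy : x i = x j.2.2.2 ∧ y i = y j.2.2.2 := by
    by_contra h
    apply hG j i j.2.2.2 h
    have : kap m (X i) (Y i) (W i) (x i : ℕ) (y i : ℕ) a b -
          kap m (X j.2.2.2) (Y j.2.2.2) (W j.2.2.2) (x j.2.2.2 : ℕ) (y j.2.2.2 : ℕ) a b =
          - κ j.2.2.2 + κ i := by
      simp only [κ]; ring
    rw [this]
    exact hj'
  rw [hcase.1, hcase.2.1, hcase.2.2, hxy.1, hxy.2]

end Pool.Agent.Lib.MP_be5e04_al
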