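import Mathlib
import Pool.Agent.Lib.MP_be5e04_al.Step

set_option autoImplicit false

namespace Pool.Agent.Lib.MP_be5e04_al

/-- The discrete Heisenberg group, as triples of integers. -/
@[ext]
structure Heis where
  x : ℤ
  y : ℤ
  z : ℤ

namespace Heis

instance : Mul Heis := ⟨fun g h => ⟨g.x + h.x, g.y + h.y, g.z + h.z + g.x * h.y⟩⟩
instance : One Heis := ⟨⟨0, 0, 0⟩⟩
instance : Inv Heis := ⟨fun g => ⟨-g.x, -g.y, -g.z + g.x * g.y⟩⟩

@[simp] lemma mul_x (g h : Heis) : (g * h).x = g.x + h.x := rfl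
@[simp] lemma mul_y (g h : Heis) : (g * h).y = g.y + h.y := rfl
@[simp] lemma mul_z (g h : Heis) : (g * h).z = g.z + h.z + g.x * h.y := rfl
@[simp] lemma one_x : (1 : Heis).x = 0 := rfl
@[simp] lemma one_y : (1 : Heis).y = 0 := rfl
@[simp] lemma one_z : (1 : Heis).z = 0 := rfl
@[simp] lemma inv_x (g : Heis) : (g⁻¹).x = -g.x := rfl
@[simp] lemma inv_y (g : Heis) : (g⁻¹).y = -g.y := rfl
@[simp] lemma inv_z (g : Heis) : (g⁻¹).z = -g.z + g.x * g.y := rfl

instance : Group Heis where
  mul_assoc a b c := by ext <;> simp <;> ring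
  one_mul a := by ext <;> simp
  mul_one a := by ext <;> simp
  inv_mul_cancel a := by ext <;> simp

/-- The underlying triple. -/
def toT (g : Heis) : ℤ × ℤ × ℤ := (g.x, g.y, g.z)

end Heis

/-- Distinct large primes. -/
noncomputable def pr (m n : ℕ) (j : Ind m n) : ℕ :=
  Nat.nth Nat.Prime (bound m n + (Fintype.equivFin (Ind m n) j : ℕ))

lemma pr_prime (m n : ℕ) (j : Ind m n) : (pr m n j).Prime :=
  Nat.nth_mem_of_infinite Nat.infinite_setOfPred_prime _

lemma pr_inj (m n : ℕ) : Function.Injective (pr m n) := by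
  intro i j hij
  have h1 := Nat.nth_injective Nat.infinite_setOfPred_prime hij
  have h2 : ((Fintype.equivFin (Ind m n) i : ℕ)) = (Fintype.equivFin (Ind m n) j : ℕ) := by omega
  exact (Fintype.equivFin (Ind m n)).injective (Fin.ext h2)

lemma pr_bound (m n : ℕ) (j : Ind m n) : bound m n ≤ pr m n j := by
  have h1 : bound m n + (Fintype.equivFin (Ind m n) j : ℕ) ≤ pr m n j :=
    (Nat.nth_strictMono Nat.infinite_setOfPred_prime).le_apply
  omega

/-- The ratio of two consecutive levels. -/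
noncomputable def PP (m n : ℕ) : ℕ := ∏ j : Ind m n, pr m n j

lemma PP_pos (m n : ℕ) : 0 < PP m n := Finset.prod_pos fun j _ => (pr_prime m n j).pos

/-- The moduli. -/
noncomputable def mseq : ℕ → ℕ
  | 0 => 1
  | k + 1 => mseq k * PP (mseq k) (k + 1)

lemma mseq_pos (k : ℕ) : 0 < mseq k := by
  induction k with
  | zero => simp [mseq]
  | succ k ih => exact Nat.mul_pos ih (PP_pos _ _)

/-- The tile index of a point at level `k`. -/
noncomputable def gam : ℕ → ℤ × ℤ × ℤ → ℤ × ℤ × ℤ
  | 0, g => g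
  | k + 1, g => phi (PP (mseq k) (k + 1)) (mseq k * PP (mseq k) (k + 1)) (gam k g)

lemma gam_fst (k : ℕ) (g : ℤ × ℤ × ℤ) :
    (gam k g).1 = g.1 / mseq k ∧ (gam k g).2.1 = g.2.1 / mseq k := by
  induction k with
  | zero => simp [gam, mseq]
  | succ k ih =>
    simp only [gam, phi, mseq]
    push_cast
    rw [ih.1, ih.2, Int.ediv_ediv_of_nonneg (by positivity), Int.ediv_ediv_of_nonneg (by positivity)]
    exact ⟨rfl, rfl⟩

/-- Right equivariance of the tile index. -/
lemma gam_right (k : ℕ) (x y z a b c : ℤ) :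
    gam k (x + mseq k * a, y + mseq k * b, z + mseq k * c + x * (mseq k * b)) =
      ((gam k (x, y, z)).1 + a, (gam k (x, y, z)).2.1 + b,
        (gam k (x, y, z)).2.2 + c + mseq k * (gam k (x, y, z)).1 * b) := by
  induction k generalizing a b c with
  | zero => simp [gam, mseq]
  | succ k ih =>
    set P : ℤ := (PP (mseq k) (k + 1) : ℤ) with hP
    set m : ℤ := (mseq k : ℤ) with hm
    have hP0 : P ≠ 0 := by
      have := PP_pos (mseq k) (k + 1)
      rw [hP]; exact_mod_cast this.ne'
    have hM : ((mseq (k + 1) : ℕ) : ℤ) = m * P := by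
      simp only [mseq]; push_cast; rfl
    have h1 := ih (P * a) (P * b) (P * c)
    have e1 : (x + ((mseq (k + 1) : ℕ) : ℤ) * a, y + ((mseq (k + 1) : ℕ) : ℤ) * b,
        z + ((mseq (k + 1) : ℕ) : ℤ) * c + x * (((mseq (k + 1) : ℕ) : ℤ) * b)) =
        (x + m * (P * a), y + m * (P * b), z + m * (P * c) + x * (m * (P * b))) := by
      rw [hM]
      simp only [mul_assoc]
    rw [e1]
    simp only [gam]
    rw [h1, hM]
    set X := (gam k (x, y, z)).1 with hX
    set Y := (gam k (x, y, z)).2.1 with hY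
    set W := (gam k (x, y, z)).2.2 with hW
    simp only [phi]
    rw [← hX, ← hY, ← hW]
    have e2 : (X + P * a) / P = X / P + a := Int.add_mul_ediv_left _ _ hP0
    have e3 : (Y + P * b) / P = Y / P + b := Int.add_mul_ediv_left _ _ hP0
    have e4 : (X + P * a) % P = X % P := Int.add_mul_emod_self_left _ _ _
    have e5 : X = X % P + P * (X / P) := (Int.emod_add_mul_ediv X P).symm
    have e6 : W + P * c + m * X * (P * b) - X % P * (m * P) * (Y / P + b) =
        (W - X % P * (m * P) * (Y / P)) + P * (c + m * P * (X / P) * b) := by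
      have : m * X * (P * b) = m * (X % P + P * (X / P)) * (P * b) := by rw [← e5]
      rw [this]; ring
    rw [← hP, ← hm, e2, e3, e4, e6, Int.add_mul_ediv_left _ _ hP0]
    simp only [Prod.mk.injEq, true_and]
    ring

/-- Effect of a left multiplication on the tile index. -/
lemma gam_left (k : ℕ) (g : Heis) (a b c : ℤ) :
    gam k ((⟨mseq k * a, mseq k * b, mseq k * c⟩ : Heis) * g).toT =
      mv (mseq k) (gam k g.toT).1 (gam k g.toT).2.1 (gam k g.toT).2.2
        (g.x % mseq k) (g.y % mseq k) a b c := by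
  have h1 := gam_right k g.x g.y g.z a b (c + a * g.y - g.x * b)
  have e1 : ((⟨mseq k * a, mseq k * b, mseq k * c⟩ : Heis) * g).toT =
      (g.x + mseq k * a, g.y + mseq k * b,
        g.z + mseq k * (c + a * g.y - g.x * b) + g.x * (mseq k * b)) := by
    simp only [Heis.toT, Heis.mul_x, Heis.mul_y, Heis.mul_z, Prod.mk.injEq]
    refine ⟨by ring, by ring, by ring⟩
  rw [e1, h1]
  unfold mv
  obtain ⟨hX, hY⟩ := gam_fst k g.toT
  have e2 : g.x = g.x % mseq k + mseq k * (g.x / mseq k) := (Int.emod_add_mul_ediv _ _).symm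
  have e3 : g.y = g.y % mseq k + mseq k * (g.y / mseq k) := (Int.emod_add_mul_ediv _ _).symm
  change ((gam k g.toT).1 + a, (gam k g.toT).2.1 + b,
    (gam k g.toT).2.2 + (c + a * g.y - g.x * b) + mseq k * (gam k g.toT).1 * b) = _
  simp only [Prod.mk.injEq, true_and]
  rw [hX, hY]
  simp only [Heis.toT]
  generalize (gam k (g.x, g.y, g.z)).2.2 = W
  have h4 : W + (c + a * g.y - g.x * b) + (mseq k : ℤ) * (g.x / mseq k) * b =
    W + (c + a * (g.y % mseq k + mseq k * (g.y / mseq k)) -
      (g.x % mseq k + mseq k * (g.x / mseq k)) * b) + (mseq k : ℤ) * (g.x / mseq k) * b := by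
    rw [← e2, ← e3]
  rw [h4]; ring

/-- The hierarchy of selection functions; `d` is the distance to the top level. -/
noncomputable def sig : ℕ → ℕ → ℤ × ℤ × ℤ → ℤ × ℤ × Bool
  | 0, _ => fun _ => (0, 0, false)
  | d + 1, k => step (mseq k) (k + 1) (PP (mseq k) (k + 1)) (pr (mseq k) (k + 1)) (sig d (k + 1))

/-- The point `g` lies on the selected fibre of its tile at level `k`, of colour `ε`. -/
def Good (d k : ℕ) (g : Heis) (ε : Bool) : Prop :=
  sig d k (gam k g.toT) = (g.x % mseq k, g.y % mseq k, ε)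

lemma emod_mul_ediv' (x : ℤ) {m P : ℤ} (hm : 0 < m) : (x % (m * P)) / m = (x / m) % P := by
  have h1 : x % (m * P) = x - m * P * (x / (m * P)) := by
    have := Int.emod_add_mul_ediv x (m * P); linarith
  have h2 : x - m * P * (x / (m * P)) = x + m * (-(P * (x / (m * P)))) := by ring
  rw [h1, h2, Int.add_mul_ediv_left _ _ hm.ne', ← Int.ediv_ediv_of_nonneg hm.le]
  have := Int.emod_add_mul_ediv (x / m) P
  linarith

lemma good_down {d k : ℕ} {g : Heis} {ε : Bool} (h : Good d (k + 1) g ε) : Good (d + 1) k g ε := by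
  unfold Good at h ⊢
  have hm : (0 : ℤ) < mseq k := by exact_mod_cast mseq_pos k
  simp only [sig, step]
  have e1 : phi (PP (mseq k) (k + 1)) (mseq k * PP (mseq k) (k + 1)) (gam k g.toT) =
      gam (k + 1) g.toT := rfl
  rw [e1, h]
  obtain ⟨hX, hY⟩ := gam_fst k g.toT
  have hM : ((mseq (k + 1) : ℕ) : ℤ) = (mseq k : ℤ) * (PP (mseq k) (k + 1) : ℤ) := by
    simp only [mseq]; push_cast; rfl
  rw [if_pos]
  · simp only [hM, Prod.mk.injEq, and_true]
    exact ⟨Int.emod_emod_of_dvd _ (Dvd.intro _ rfl), Int.emod_emod_of_dvd _ (Dvd.intro _ rfl)⟩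
  · simp only [hM]
    rw [hX, hY]
    exact ⟨emod_mul_ediv' _ hm, emod_mul_ediv' _ hm⟩

lemma good_zero {d k : ℕ} {g : Heis} {ε : Bool} (h : Good d k g ε) : Good (d + k) 0 g ε := by
  induction k generalizing d with
  | zero => exact h
  | succ k ih =>
    have := ih (good_down h)
    rwa [show d + 1 + k = d + (k + 1) by ring] at this

/-- The colouring with top level `N`. -/
noncomputable def chi (N : ℕ) (g : Heis) : Bool := (sig N 0 g.toT).2.2

lemma chi_of_good {d k : ℕ} {g : Heis} {ε : Bool} (h : Good d k g ε) : chi (d + k) g = ε := by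
  have := good_zero h
  unfold Good at this
  unfold chi
  simp only [gam] at this
  rw [this]

/-- The moves used at level `k`. -/
noncomputable def moves (k : ℕ) : Finset Heis := by
  classical
  exact (Finset.range (PP (mseq k) (k + 1)) ×ˢ (Finset.range (PP (mseq k) (k + 1)) ×ˢ
    Finset.range (PP (mseq k) (k + 1)))).image
    fun abc => ⟨mseq k * abc.1, mseq k * abc.2.1, mseq k * abc.2.2⟩

lemma chi_moves {k N : ℕ} (hkN : k < N) (t : Fin (k + 1) → Heis) (ε : Bool) :
    ∃ y ∈ moves k, ∀ i, chi N (y * t i) = ε := by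
  classical
  obtain ⟨d, rfl⟩ : ∃ d, N = (d + 1) + k := ⟨N - k - 1, by omega⟩
  have hm : (0 : ℤ) < mseq k := by exact_mod_cast mseq_pos k
  let xr : Fin (k + 1) → Fin (mseq k) := fun i =>
    ⟨((t i).x % mseq k).toNat, by
      have h1 := Int.emod_nonneg (t i).x hm.ne'
      have h2 := Int.emod_lt_of_pos (t i).x hm
      omega⟩
  let yr : Fin (k + 1) → Fin (mseq k) := fun i =>
    ⟨((t i).y % mseq k).toNat, by
      have h1 := Int.emod_nonneg (t i).y hm.ne'
      have h2 := Int.emod_lt_of_pos (t i).y hm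
      omega⟩
  have hxr : ∀ i, ((xr i : ℕ) : ℤ) = (t i).x % mseq k := fun i =>
    Int.toNat_of_nonneg (Int.emod_nonneg _ hm.ne')
  have hyr : ∀ i, ((yr i : ℕ) : ℤ) = (t i).y % mseq k := fun i =>
    Int.toNat_of_nonneg (Int.emod_nonneg _ hm.ne')
  obtain ⟨a, b, c, ha, hb, hc, habc⟩ := main_step (P := PP (mseq k) (k + 1)) (mseq_pos k)
    (Nat.succ_pos k) (pr (mseq k) (k + 1)) (pr_prime _ _) (pr_inj _ _) (pr_bound _ _) rfl
    (sig d (k + 1)) (fun i => (gam k (t i).toT).1) (fun i => (gam k (t i).toT).2.1)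
    (fun i => (gam k (t i).toT).2.2) xr yr ε
  refine ⟨⟨mseq k * a, mseq k * b, mseq k * c⟩, ?_, ?_⟩
  · unfold moves
    rw [Finset.mem_image]
    exact ⟨(a, b, c), by simp [ha, hb, hc], rfl⟩
  · intro i
    apply chi_of_good
    unfold Good
    rw [gam_left, ← hxr, ← hyr]
    have h1 := habc i
    change sig (d + 1) k _ = _
    simp only [sig]
    rw [h1, hxr, hyr]
    simp only [Heis.mul_x, Heis.mul_y, Prod.mk.injEq, and_true]
    constructor
    · rw [add_comm, Int.add_mul_emod_self_left]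
    · rw [add_comm, Int.add_mul_emod_self_left]

/-- Completely syndetic subsets of a group: for every `n` there is a finite set `F` such that every
`n`-tuple can be moved into `A` by a left multiplication with an element of `F`. -/
def CS {G : Type*} [Group G] (A : Set G) : Prop :=
  ∀ n : ℕ, ∃ F : Finset G, ∀ t : Fin n → G, ∃ y ∈ F, ∀ i, y * t i ∈ A

/-- A group with two disjoint completely syndetic subsets. -/
def TwoCS (G : Type*) [Group G] : Prop := ∃ A B : Set G, Disjoint A B ∧ CS A ∧ CS B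

/-- The Heisenberg group has two disjoint completely syndetic subsets. -/
theorem twoCS_heis : TwoCS Heis := by
  classical
  let 𝒰 : Ultrafilter ℕ := Filter.hyperfilter ℕ
  let A : Bool → Set Heis := fun ε => {g | ∀ᶠ N in (𝒰 : Filter ℕ), chi N g = ε}
  have hCS : ∀ ε, CS (A ε) := by
    intro ε n
    refine ⟨moves n, ?_⟩
    intro t
    let t' : Fin (n + 1) → Heis := fun i => if h : (i : ℕ) < n then t ⟨i, h⟩ else 1
    have h1 : ∀ᶠ N in (𝒰 : Filter ℕ), ∃ y ∈ moves n, ∀ i, chi N (y * t' i) = ε := by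
      have h2 : ∀ᶠ N in Filter.atTop, n < N := Filter.eventually_gt_atTop n
      have h3 : ∀ᶠ N in (𝒰 : Filter ℕ), n < N :=
        Nat.hyperfilter_le_atTop h2
      exact h3.mono fun N hN => chi_moves hN t' ε
    have h4 : ∃ y ∈ moves n, ∀ᶠ N in (𝒰 : Filter ℕ), ∀ i, chi N (y * t' i) = ε := by
      by_contra hno
      have h5 : ∀ y ∈ moves n, ∀ᶠ N in (𝒰 : Filter ℕ), ¬ ∀ i, chi N (y * t' i) = ε := by
        intro y hy
        exact Ultrafilter.eventually_not.mpr (fun h => hno ⟨y, hy, h⟩)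
      have h6 := (Filter.eventually_all_finset (moves n)).mpr h5
      obtain ⟨N, hN1, hN2⟩ := (h1.and h6).exists
      obtain ⟨y, hy, hy2⟩ := hN1
      exact hN2 y hy hy2
    obtain ⟨y, hy, hyN⟩ := h4
    refine ⟨y, hy, ?_⟩
    intro i
    refine hyN.mono ?_
    intro N hN
    have := hN ⟨i, by omega⟩
    simpa [t'] using this
  refine ⟨A true, A false, ?_, hCS true, hCS false⟩
  rw [Set.disjoint_left]
  intro g h1 h2
  obtain ⟨N, hN1, hN2⟩ := (Filter.Eventually.and h1 h2).exists
  rw [hN1] at hN2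
  exact Bool.noConfusion hN2

end Pool.Agent.Lib.MP_be5e04_al
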