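import Mathlib
import Pool.Agent.Lib.MP_be5e04_al.Defs
import Pool.Agent.Lib.MP_be5e04_al.Heis

set_option autoImplicit false

namespace Pool.Agent.Lib.MP_be5e04_al

attribute [local instance] Ultrafilter.mul

variable {G : Type*} [Group G]

lemma ultra_mul_assoc (p q r : Ultrafilter G) : p * q * r = p * (q * r) :=
  (Ultrafilter.semigroup (M := G)).mul_assoc p q r

/-- The closure of a completely syndetic set contains a right ideal. -/
lemma exists_ultra {A : Set G} (hA : CS A) : ∃ p : Ultrafilter G, ∀ q : Ultrafilter G, A ∈ p * q := by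
  classical
  let S : Set (Set G) := {Y | ∃ q : Ultrafilter G, Y = {y | ∀ᶠ s in (q : Filter G), y * s ∈ A}}
  obtain ⟨p, hp⟩ := Ultrafilter.exists_ultrafilter_of_finite_inter_nonempty S (by
    intro T hT
    have hT' : ∀ Y : T, ∃ q : Ultrafilter G, (Y : Set G) =
        {y | ∀ᶠ s in (q : Filter G), y * s ∈ A} := fun Y => hT Y.2
    choose q hq using hT'
    obtain ⟨F, hF⟩ := hA T.card
    let e : T ≃ Fin T.card := T.equivFin
    -- choice of the points
    have hs : ∀ i : Fin T.card, ∃ s : G, ∀ y ∈ F,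
        y ∉ ((e.symm i : T) : Set G) → y * s ∉ A := by
      intro i
      have h1 : ∀ y ∈ F, ∀ᶠ s in (q (e.symm i) : Filter G),
          (y ∉ ((e.symm i : T) : Set G) → y * s ∉ A) := by
        intro y _
        by_cases hy : y ∈ ((e.symm i : T) : Set G)
        · exact Filter.Eventually.of_forall fun s h => absurd hy h
        · rw [hq] at hy
          have h2 : ∀ᶠ s in (q (e.symm i) : Filter G), ¬ (y * s ∈ A) :=
            Ultrafilter.eventually_not.mpr hy
          exact h2.mono fun s h _ => h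
      obtain ⟨s, hs⟩ := ((Filter.eventually_all_finset F).mpr h1).exists
      exact ⟨s, hs⟩
    choose s hs using hs
    obtain ⟨y, hyF, hy⟩ := hF s
    refine ⟨y, ?_⟩
    intro Y hY
    by_contra hcon
    have h3 := hs (e ⟨Y, hY⟩) y hyF
    rw [Equiv.symm_apply_apply] at h3
    exact h3 hcon (hy _))
  refine ⟨p, ?_⟩
  intro q
  have h1 : {y | ∀ᶠ s in (q : Filter G), y * s ∈ A} ∈ p := hp ⟨q, rfl⟩
  exact (Ultrafilter.eventually_mul p q (· ∈ A)).mpr h1

/-- Every closed right ideal contains a minimal one. -/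
lemma exists_minimal {C : Set (Ultrafilter G)} (hC : IsClosed C) (hC' : IsRightIdeal C) :
    ∃ R, R ⊆ C ∧ IsMinimalClosedRightIdeal R := by
  classical
  obtain ⟨R, hRC, hR⟩ := zorn_superset_nonempty
    {R : Set (Ultrafilter G) | IsClosed R ∧ IsRightIdeal R} (by
      intro c hc hchain hne
      refine ⟨⋂₀ c, ⟨isClosed_sInter fun s hs => (hc hs).1, ?_, ?_⟩, fun s hs =>
        Set.sInter_subset_of_mem hs⟩
      · obtain ⟨s0, hs0⟩ := hne
        have : Nonempty c := ⟨⟨s0, hs0⟩⟩
        have h1 : (⋂ s : c, (s : Set (Ultrafilter G))).Nonempty := by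
          apply IsCompact.nonempty_iInter_of_directed_nonempty_isCompact_isClosed
          · intro s t
            rcases hchain.total s.2 t.2 with h | h
            · exact ⟨s, le_refl _, h⟩
            · exact ⟨t, h, le_refl _⟩
          · intro s; exact (hc s.2).2.1
          · intro s; exact (hc s.2).1.isCompact
          · intro s; exact (hc s.2).1
        rwa [← Set.sInter_eq_iInter] at h1
      · intro p hp q s hs
        exact (hc hs).2.2 p (hp s hs) q) C ⟨hC, hC'⟩
  refine ⟨R, hRC, hR.prop.1, hR.prop.2, ?_⟩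
  intro R' h1 h2 h3
  exact Set.Subset.antisymm h3 (hR.le_of_le ⟨h1, h2⟩ h3)

/-- A completely syndetic set carries a minimal closed right ideal in its closure. -/
lemma exists_minimal_of_CS {A : Set G} (hA : CS A) :
    ∃ R, IsMinimalClosedRightIdeal R ∧ ∀ u ∈ R, A ∈ u := by
  obtain ⟨p, hp⟩ := exists_ultra hA
  let C : Set (Ultrafilter G) := {u | A ∈ u} ∩ ⋂ q : Ultrafilter G, {u | A ∈ u * q}
  have hclosed : IsClosed C := by
    apply IsClosed.inter (ultrafilter_isClosed_basic A)
    apply isClosed_iInter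
    intro q
    exact (ultrafilter_isClosed_basic A).preimage (Ultrafilter.continuous_mul_left q)
  have hright : IsRightIdeal C := by
    constructor
    · refine ⟨p * p, hp p, ?_⟩
      rw [Set.mem_iInter]
      intro q
      change A ∈ p * p * q
      rw [ultra_mul_assoc]
      exact hp _
    · rintro u ⟨_, hu⟩ q
      rw [Set.mem_iInter] at hu
      refine ⟨hu q, ?_⟩
      rw [Set.mem_iInter]
      intro r
      change A ∈ u * q * r
      rw [ultra_mul_assoc]
      exact hu _
  obtain ⟨R, hRC, hR⟩ := exists_minimal hclosed hright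
  exact ⟨R, hR, fun u hu => (hRC hu).1⟩

/-- Sanity check: minimal closed right ideals exist for every group. -/
theorem exists_minimalClosedRightIdeal (G : Type*) [Group G] :
    ∃ R : Set (Ultrafilter G), IsMinimalClosedRightIdeal R := by
  obtain ⟨R, hR, _⟩ := exists_minimal_of_CS (G := G) (A := Set.univ)
    (fun n => ⟨{1}, fun t => ⟨1, by simp, fun i => trivial⟩⟩)
  exact ⟨R, hR⟩

/-- Two disjoint completely syndetic sets give two distinct minimal closed right ideals. -/
theorem exists_two_of_twoCS (h : TwoCS G) : ∃ R₁ R₂ : Set (Ultrafilter G),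
    IsMinimalClosedRightIdeal R₁ ∧ IsMinimalClosedRightIdeal R₂ ∧ R₁ ≠ R₂ := by
  obtain ⟨A, B, hAB, hA, hB⟩ := h
  obtain ⟨R₁, h1, h1A⟩ := exists_minimal_of_CS hA
  obtain ⟨R₂, h2, h2B⟩ := exists_minimal_of_CS hB
  refine ⟨R₁, R₂, h1, h2, ?_⟩
  rintro rfl
  obtain ⟨u, hu⟩ := h1.2.1.1
  have h3 : A ∩ B ∈ u := Filter.inter_mem (h1A u hu) (h2B u hu)
  rw [Set.disjoint_iff_inter_eq_empty.mp hAB] at h3
  exact Ultrafilter.empty_notMem h3

end Pool.Agent.Lib.MP_be5e04_al
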