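import Mathlib
import Pool.Agent.Lib.MP_be5e04_al.Ideals

set_option autoImplicit false

namespace Pool.Agent.Lib.MP_be5e04_al

open scoped commutatorElement

section Inherit

/-- Completely syndetic sets pull back along surjective homomorphisms. -/
lemma CS.of_surjective {G Q : Type*} [Group G] [Group Q] (f : G →* Q)
    (hf : Function.Surjective f) {A : Set Q} (hA : CS A) : CS (f ⁻¹' A) := by
  classical
  intro n
  obtain ⟨F, hF⟩ := hA n
  choose s hs using hf
  refine ⟨F.image s, ?_⟩
  intro t
  obtain ⟨y, hy, hyt⟩ := hF (fun i => f (t i))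
  refine ⟨s y, Finset.mem_image_of_mem _ hy, ?_⟩
  intro i
  rw [Set.mem_preimage, map_mul, hs]
  exact hyt i

lemma TwoCS.of_surjective {G Q : Type*} [Group G] [Group Q] (f : G →* Q)
    (hf : Function.Surjective f) (h : TwoCS Q) : TwoCS G := by
  obtain ⟨A, B, hAB, hA, hB⟩ := h
  exact ⟨f ⁻¹' A, f ⁻¹' B, hAB.preimage f, CS.of_surjective f hf hA, CS.of_surjective f hf hB⟩

/-- Completely syndetic subsets of a subgroup induce completely syndetic subsets of the group. -/
lemma TwoCS.of_injective {H G : Type*} [Group H] [Group G] (f : H →* G)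
    (hf : Function.Injective f) (h : TwoCS H) : TwoCS G := by
  classical
  obtain ⟨A, B, hAB, hA, hB⟩ := h
  let K : Subgroup G := f.range
  -- representatives of the right cosets
  let rep : G → G := fun g => (Quotient.out (Quotient.mk (QuotientGroup.rightRel K) g) : G)
  have hrep1 : ∀ g, g * (rep g)⁻¹ ∈ K := by
    intro g
    have h1 : (QuotientGroup.rightRel K) (rep g) g := Quotient.mk_out g
    rw [QuotientGroup.rightRel_apply] at h1
    exact h1
  have hrep2 : ∀ k ∈ K, ∀ g, rep (k * g) = rep g := by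
    intro k hk g
    have h1 : Quotient.mk (QuotientGroup.rightRel K) (k * g) =
        Quotient.mk (QuotientGroup.rightRel K) g := by
      apply Quotient.sound
      change (QuotientGroup.rightRel K) (k * g) g
      rw [QuotientGroup.rightRel_apply]
      have : g * (k * g)⁻¹ = k⁻¹ := by group
      rw [this]
      exact K.inv_mem hk
    simp only [rep, h1]
  let lift : Set H → Set G := fun C => {g | ∃ c ∈ C, f c = g * (rep g)⁻¹}
  have hlift : ∀ C : Set H, CS C → CS (lift C) := by
    intro C hC n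
    obtain ⟨F, hF⟩ := hC n
    refine ⟨F.image f, ?_⟩
    intro t
    have h1 : ∀ i, ∃ u : H, f u = t i * (rep (t i))⁻¹ := fun i => hrep1 (t i)
    choose u hu using h1
    obtain ⟨y, hy, hyt⟩ := hF u
    refine ⟨f y, Finset.mem_image_of_mem _ hy, ?_⟩
    intro i
    refine ⟨y * u i, hyt i, ?_⟩
    rw [map_mul, hu, hrep2 (f y) ⟨y, rfl⟩, mul_assoc]
  refine ⟨lift A, lift B, ?_, hlift A hA, hlift B hB⟩
  rw [Set.disjoint_left]
  rintro g ⟨a, ha, hag⟩ ⟨b, hb, hbg⟩
  have : a = b := hf (hag.trans hbg.symm)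
  subst this
  exact Set.disjoint_left.mp hAB ha hb

end Inherit

section Pair

variable {G : Type*} [Group G]

/-- Moving integer powers past each other. -/
lemma zpow_mul_zpow_of_central {a b c : G} (hab : a * b = b * a * c) (hac : Commute a c)
    (hbc : Commute b c) (x y : ℤ) : a ^ x * b ^ y = b ^ y * a ^ x * c ^ (x * y) := by
  -- conjugation of `b` by `a`
  have h1 : ∀ y : ℤ, a * b ^ y = b ^ y * a * c ^ y := by
    intro y
    have h2 : SemiconjBy a b (b * c) := by
      unfold SemiconjBy
      rw [hab, mul_assoc, hac.eq, ← mul_assoc]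
    have h3 := h2.zpow_right y
    rw [hbc.mul_zpow] at h3
    unfold SemiconjBy at h3
    rw [h3, mul_assoc, mul_assoc, (hac.zpow_right y).eq]
  have h4 : SemiconjBy (b ^ y) a (a * c ^ (-y)) := by
    unfold SemiconjBy
    have h5 := h1 y
    have h6 : Commute (c ^ y) (b ^ y) := ((hbc.zpow_zpow y y)).symm
    calc b ^ y * a = b ^ y * a * c ^ y * c ^ (-y) := by
          rw [mul_assoc (b ^ y * a), ← zpow_add]; simp
      _ = a * b ^ y * c ^ (-y) := by rw [← h5]
      _ = a * c ^ (-y) * b ^ y := by
          rw [mul_assoc, mul_assoc, (hbc.zpow_zpow y (-y)).eq]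
  have h7 := h4.zpow_right x
  have h8 : Commute a (c ^ (-y)) := hac.zpow_right _
  rw [h8.mul_zpow] at h7
  unfold SemiconjBy at h7
  rw [h7]
  have h9 : Commute (c ^ (-y)) (b ^ y) := (hbc.zpow_zpow y (-y)).symm
  rw [← zpow_mul]
  have h10 : c ^ (-y * x) * b ^ y * c ^ (x * y) = b ^ y := by
    rw [(hbc.zpow_zpow y (-y * x)).symm.eq, mul_assoc, ← zpow_add]
    have : -y * x + x * y = 0 := by ring
    rw [this, zpow_zero, mul_one]
  rw [mul_assoc, mul_assoc (a ^ x), ← mul_assoc (c ^ (-y * x)), h10]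

/-- The homomorphism from the Heisenberg group attached to a pair with central commutator. -/
noncomputable def heisHom {a b c : G} (hab : a * b = b * a * c) (hac : Commute a c)
    (hbc : Commute b c) : Heis →* G where
  toFun g := b ^ g.y * a ^ g.x * c ^ g.z
  map_one' := by simp
  map_mul' g h := by
    simp only [Heis.mul_x, Heis.mul_y, Heis.mul_z]
    have h1 := zpow_mul_zpow_of_central hab hac hbc g.x h.y
    have e1 : b ^ g.y * a ^ g.x * c ^ g.z * (b ^ h.y * a ^ h.x * c ^ h.z) =
        b ^ g.y * (a ^ g.x * b ^ h.y) * a ^ h.x * (c ^ g.z * c ^ h.z) := by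
      have c1 : Commute (c ^ g.z) (b ^ h.y) := (hbc.zpow_zpow _ _).symm
      have c2 : Commute (c ^ g.z) (a ^ h.x) := (hac.zpow_zpow _ _).symm
      calc b ^ g.y * a ^ g.x * c ^ g.z * (b ^ h.y * a ^ h.x * c ^ h.z)
          = b ^ g.y * a ^ g.x * (c ^ g.z * b ^ h.y) * a ^ h.x * c ^ h.z := by group
        _ = b ^ g.y * a ^ g.x * b ^ h.y * (c ^ g.z * a ^ h.x) * c ^ h.z := by
            rw [c1.eq]; group
        _ = _ := by rw [c2.eq]; group
    rw [e1, h1]
    have c3 : Commute (c ^ (g.x * h.y)) (a ^ h.x) := (hac.zpow_zpow _ _).symm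
    calc b ^ (g.y + h.y) * a ^ (g.x + h.x) * c ^ (g.z + h.z + g.x * h.y)
        = b ^ g.y * b ^ h.y * (a ^ g.x * a ^ h.x) * (c ^ g.z * c ^ h.z * c ^ (g.x * h.y)) := by
          simp only [zpow_add]
      _ = b ^ g.y * (b ^ h.y * a ^ g.x * (a ^ h.x * c ^ (g.x * h.y))) * (c ^ g.z * c ^ h.z) := by
          have c4 : Commute (c ^ g.z * c ^ h.z) (c ^ (g.x * h.y)) := by
            rw [← zpow_add]; exact (Commute.refl c).zpow_zpow _ _
          rw [c4.eq]; group
      _ = _ := by rw [← c3.eq]; group

lemma heisHom_injective {a b c : G} (hab : a * b = b * a * c) (hac : Commute a c)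
    (hbc : Commute b c) (hc : ∀ n : ℤ, c ^ n = 1 → n = 0) :
    Function.Injective (heisHom hab hac hbc) := by
  rw [injective_iff_map_eq_one]
  intro g hg
  have hg' : b ^ g.y * a ^ g.x * c ^ g.z = 1 := hg
  -- commute with a
  have h1 : g.y = 0 := by
    apply hc
    have h2 : a * (b ^ g.y * a ^ g.x * c ^ g.z) = (b ^ g.y * a ^ g.x * c ^ g.z) * a := by
      rw [hg']; simp
    have h3 := zpow_mul_zpow_of_central hab hac hbc 1 g.y
    rw [zpow_one, one_mul] at h3
    have h4 : a * (b ^ g.y * a ^ g.x * c ^ g.z) =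
        (b ^ g.y * a ^ g.x * c ^ g.z) * a * c ^ g.y := by
      have c1 : Commute (c ^ g.y) (a ^ g.x) := (hac.zpow_zpow _ _).symm
      have c2 : Commute (c ^ g.z) a := (hac.zpow_right _).symm
      have c3 : Commute (c ^ g.z) (c ^ g.y) := (Commute.refl c).zpow_zpow _ _
      have c4 : Commute a (a ^ g.x) := (Commute.refl a).zpow_right _
      calc a * (b ^ g.y * a ^ g.x * c ^ g.z) = (a * b ^ g.y) * a ^ g.x * c ^ g.z := by group
        _ = b ^ g.y * a * (c ^ g.y * a ^ g.x) * c ^ g.z := by rw [h3]; group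
        _ = b ^ g.y * (a * a ^ g.x) * (c ^ g.y * c ^ g.z) := by rw [c1.eq]; group
        _ = b ^ g.y * (a ^ g.x * a) * (c ^ g.z * c ^ g.y) := by rw [c4.eq, c3.eq]
        _ = b ^ g.y * a ^ g.x * (a * c ^ g.z) * c ^ g.y := by group
        _ = _ := by rw [← c2.eq]; group
    rw [h4, hg'] at h2
    simpa using h2
  have h2 : g.x = 0 := by
    apply hc
    rw [h1] at hg'
    simp only [zpow_zero, one_mul] at hg'
    have h3 := zpow_mul_zpow_of_central hab hac hbc g.x 1
    rw [zpow_one, mul_one] at h3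
    have h4 : a ^ g.x * c ^ g.z * b = b * (a ^ g.x * c ^ g.z) := by rw [hg']; simp
    have c1 : Commute (c ^ g.z) b := (hbc.zpow_right _).symm
    have c3 : Commute (c ^ g.x) (c ^ g.z) := (Commute.refl c).zpow_zpow _ _
    have h5 : a ^ g.x * c ^ g.z * b = b * (a ^ g.x * c ^ g.z) * c ^ g.x := by
      calc a ^ g.x * c ^ g.z * b = (a ^ g.x * b) * c ^ g.z := by
            rw [mul_assoc, c1.eq]; group
        _ = b * a ^ g.x * (c ^ g.x * c ^ g.z) := by rw [h3]; group
        _ = _ := by rw [c3.eq]; group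
    rw [h5, hg'] at h4
    simpa using h4
  have h3 : g.z = 0 := by
    apply hc
    rw [h1, h2] at hg'
    simpa using hg'
  ext
  · simpa using h2
  · simpa using h1
  · simpa using h3

/-- A group with a pair of elements whose commutator is centralised by both and has infinite order
has two disjoint completely syndetic sets. -/
theorem twoCS_of_pair {a b c : G} (hab : a * b = b * a * c) (hac : Commute a c)
    (hbc : Commute b c) (hc : ∀ n : ℤ, c ^ n = 1 → n = 0) : TwoCS G :=
  TwoCS.of_injective (heisHom hab hac hbc) (heisHom_injective hab hac hbc hc) twoCS_heis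

end Pair

section VA

variable {G : Type*} [Group G]

/-- A finitely generated group whose commutators are central and of finite order is virtually
abelian. -/
lemma va_of_torsion [Group.FG G] (h1 : ∀ a b c : G, Commute ⁅a, b⁆ c)
    (h2 : ∀ a b : G, ∃ n : ℕ, 0 < n ∧ ⁅a, b⁆ ^ n = 1) : IsVirtuallyAbelian G := by
  classical
  -- for each g the map h ↦ ⁅h, g⁆ is a homomorphism to the centre
  let ψ : G → G →* Subgroup.center G := fun g =>
    { toFun := fun h => ⟨⁅h, g⁆, Subgroup.mem_center_iff.mpr fun x => ((h1 h g x).eq).symm⟩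
      map_one' := by ext; simp [commutatorElement_def]
      map_mul' := by
        intro x y
        apply Subtype.ext
        simp only [Subgroup.coe_mul]
        have e1 : ⁅x * y, g⁆ = x * ⁅y, g⁆ * x⁻¹ * ⁅x, g⁆ := by
          simp only [commutatorElement_def]; group
        rw [e1, ← (h1 y g x).eq, mul_inv_cancel_right]
        exact (h1 y g _).eq }
  have hker : ∀ g x, x ∈ (ψ g).ker ↔ Commute x g := by
    intro g x
    rw [MonoidHom.mem_ker]
    constructor
    · intro h
      have h3 : ⁅x, g⁆ = 1 := congrArg Subtype.val h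
      exact commutatorElement_eq_one_iff_commute.mp h3
    · intro h
      apply Subtype.ext
      exact commutatorElement_eq_one_iff_commute.mpr h
  have hfin : ∀ g, (ψ g).ker.FiniteIndex := by
    intro g
    have htors : IsMulTorsion (ψ g).range := by
      rintro ⟨_, x, rfl⟩
      obtain ⟨n, hn, hx⟩ := h2 x g
      rw [isOfFinOrder_iff_pow_eq_one]
      refine ⟨n, hn, ?_⟩
      apply Subtype.ext
      apply Subtype.ext
      exact hx
    let _ : CommGroup (ψ g).range :=
      { (inferInstance : Group (ψ g).range) with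
        mul_comm := by
          rintro ⟨⟨x, hx⟩, hx'⟩ ⟨⟨y, hy⟩, hy'⟩
          apply Subtype.ext
          apply Subtype.ext
          exact Subgroup.mem_center_iff.mp hy x }
    have : Finite (ψ g).range := CommGroup.finite_of_fg_isMulTorsion _ htors
    exact Subgroup.finiteIndex_ker _
  obtain ⟨S, hS⟩ := Group.fg_iff'.mp (inferInstance : Group.FG G)
  obtain ⟨S, _, hS⟩ := hS
  let A : Subgroup G := ⨅ g ∈ S, (ψ g).ker
  refine ⟨A, ?_, ?_⟩
  · exact Subgroup.finiteIndex_iInf' (fun g => (ψ g).ker) (fun g _ => hfin g)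
  · intro a ha b _
    have h3 : Subgroup.closure (S : Set G) ≤ Subgroup.centralizer {a} := by
      rw [Subgroup.closure_le]
      intro g hg
      rw [SetLike.mem_coe, Subgroup.mem_centralizer_singleton_iff]
      have h4 : a ∈ (ψ g).ker := by
        simp only [A, Subgroup.mem_iInf] at ha
        exact ha g hg
      exact ((hker g a).mp h4).symm.eq
    rw [hS] at h3
    have h5 := h3 (Subgroup.mem_top b)
    rw [Subgroup.mem_centralizer_singleton_iff] at h5
    exact h5.symm

lemma va_of_finiteIndex {H : Subgroup G} [H.FiniteIndex] (h : IsVirtuallyAbelian H) :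
    IsVirtuallyAbelian G := by
  obtain ⟨A, hA, hAc⟩ := h
  refine ⟨A.map H.subtype, ?_, ?_⟩
  · constructor
    rw [Subgroup.index_map_subtype]
    exact Nat.mul_ne_zero hA.index_ne_zero Subgroup.FiniteIndex.index_ne_zero
  · rintro _ ⟨a, ha, rfl⟩ _ ⟨b, hb, rfl⟩
    rw [← map_mul, hAc a ha b hb, map_mul]

end VA

universe u

/-- Every finitely generated nilpotent group which is not virtually abelian has two disjoint
completely syndetic sets. -/
theorem twoCS_of_nilpotent (G : Type u) [Group G] [Group.IsNilpotent G] :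
    Group.FG G → ¬ IsVirtuallyAbelian G → TwoCS G := by
  classical
  refine Group.nilpotent_center_quotient_ind
    (P := fun G _ _ => Group.FG G → ¬ IsVirtuallyAbelian G → TwoCS G) G ?_ ?_
  · intro G _ _ _ hva
    exfalso
    apply hva
    exact ⟨⊤, inferInstance, fun a _ b _ => Subsingleton.elim _ _⟩
  · intro G _ _ ih hfg hva
    by_cases hq : IsVirtuallyAbelian (G ⧸ Subgroup.center G)
    · obtain ⟨A, hA, hAc⟩ := hq
      let H : Subgroup G := A.comap (QuotientGroup.mk' (Subgroup.center G))
      have : H.FiniteIndex := ⟨by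
        change (A.comap (QuotientGroup.mk' (Subgroup.center G))).index ≠ 0
        rw [Subgroup.index_comap_of_surjective _ (QuotientGroup.mk'_surjective _)]
        exact hA.index_ne_zero⟩
      have hcentral : ∀ a b : H, ∀ c : G, Commute ((⁅a, b⁆ : H) : G) c := by
        intro a b c
        have h1 : ((⁅a, b⁆ : H) : G) ∈ Subgroup.center G := by
          have h2 : QuotientGroup.mk' (Subgroup.center G) ((⁅a, b⁆ : H) : G) = 1 := by
            have h3 := hAc _ a.2 _ b.2
            have h4 : ((⁅a, b⁆ : H) : G) = ⁅(a : G), (b : G)⁆ := by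
              simp [commutatorElement_def]
            rw [h4, map_commutatorElement]
            exact commutatorElement_eq_one_iff_mul_comm.mpr h3
          exact (QuotientGroup.eq_one_iff _).mp h2
        exact ((Subgroup.mem_center_iff.mp h1) c).symm
      by_cases htor : ∀ a b : H, ∃ n : ℕ, 0 < n ∧ ⁅a, b⁆ ^ n = 1
      · exfalso
        apply hva
        apply va_of_finiteIndex (H := H)
        apply va_of_torsion _ htor
        intro a b c
        have := hcentral a b c
        exact Subtype.ext this.eq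
      · push Not at htor
        obtain ⟨a, b, hab⟩ := htor
        -- use the pair (a, b) in G with c = b⁻¹ a⁻¹ b a inverse
        have hcomm : ∀ x : G, Commute ((⁅a⁻¹, b⁻¹⁆ : H) : G) x := hcentral a⁻¹ b⁻¹
        apply twoCS_of_pair (a := (a : G)) (b := (b : G)) (c := ((⁅a⁻¹, b⁻¹⁆ : H) : G))
        · have h1 : ((⁅a⁻¹, b⁻¹⁆ : H) : G) = (a : G)⁻¹ * (b : G)⁻¹ * a * b := by
            simp [commutatorElement_def]
          have h2 := (hcomm ((b : G) * a)).eq
          rw [← h2, h1]
          -- a⁻¹ b⁻¹ a b commutes with everything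
          have h3 := hcomm ((a : G) * b)
          have h4 : (b : G) * a * ((a : G)⁻¹ * (b : G)⁻¹ * a * b) = a * b := by group
          rw [h1] at h2
          rw [h2, h4]
        · exact (hcomm a).symm
        · exact (hcomm b).symm
        · intro n hn
          by_contra hne
          -- relate the two commutators
          have h1 : ⁅a⁻¹, b⁻¹⁆ = ⁅a, b⁆ := by
            apply Subtype.ext
            have h2 := (hcomm ((b : G) * a)).eq
            have h3 : ((⁅a⁻¹, b⁻¹⁆ : H) : G) = (a : G)⁻¹ * (b : G)⁻¹ * a * b := by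
              simp [commutatorElement_def]
            have h4 : ((⁅a, b⁆ : H) : G) = (a : G) * b * (a : G)⁻¹ * (b : G)⁻¹ := by
              simp [commutatorElement_def]
            rw [h4, h3]
            rw [h3] at h2
            have h5 : (b : G) * a * ((a : G)⁻¹ * (b : G)⁻¹ * a * b) = a * b := by group
            rw [h5] at h2
            have h6 : (a : G)⁻¹ * (b : G)⁻¹ * a * b = (a : G) * b * ((b : G) * a)⁻¹ := by
              rw [← h2, mul_inv_cancel_right]
            rw [h6]; group
          rw [h1] at hn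
          have hn' : (⁅a, b⁆ : H) ^ n = 1 := by
            apply Subtype.ext
            simpa using hn
          have h7 : (⁅a, b⁆ : H) ^ n.natAbs = 1 := by
            rcases Int.natAbs_eq n with h | h
            · rw [h, zpow_natCast] at hn'; exact hn'
            · rw [h, zpow_neg, zpow_natCast, inv_eq_one] at hn'; exact hn'
          exact hab n.natAbs (Int.natAbs_pos.mpr hne) h7
    · have := hfg
      exact TwoCS.of_surjective (QuotientGroup.mk' (Subgroup.center G))
        (QuotientGroup.mk'_surjective _) (ih inferInstance hq)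

section HeisFacts

instance : Countable Heis := by
  have : Function.Injective Heis.toT := by
    intro g h hgh
    simp only [Heis.toT, Prod.mk.injEq] at hgh
    ext
    · exact hgh.1
    · exact hgh.2.1
    · exact hgh.2.2
  exact this.countable

lemma heis_pow_x (n : ℕ) : (⟨1, 0, 0⟩ : Heis) ^ n = ⟨n, 0, 0⟩ := by
  induction n with
  | zero => rfl
  | succ n ih => rw [pow_succ, ih]; ext <;> simp

lemma heis_pow_y (n : ℕ) : (⟨0, 1, 0⟩ : Heis) ^ n = ⟨0, n, 0⟩ := by
  induction n with
  | zero => rfl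
  | succ n ih => rw [pow_succ, ih]; ext <;> simp

instance : Group.IsNilpotent Heis := by
  rw [Subgroup.nilpotent_iff_lowerCentralSeries]
  refine ⟨2, ?_⟩
  apply Subgroup.lowerCentralSeries_succ_eq_bot
  rw [Subgroup.lowerCentralSeries_succ, Subgroup.lowerCentralSeries_zero, Subgroup.commutator_le]
  intro a _ b _
  rw [Subgroup.mem_center_iff]
  intro g
  ext <;> simp [commutatorElement_def]
  ring

lemma heis_not_va : ¬ IsVirtuallyAbelian Heis := by
  rintro ⟨A, hA, hAc⟩
  obtain ⟨n, hn, hn1⟩ := Subgroup.exists_pow_mem_of_index_ne_zero hA.index_ne_zero (⟨1, 0, 0⟩ : Heis)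
  obtain ⟨k, hk, hk1⟩ := Subgroup.exists_pow_mem_of_index_ne_zero hA.index_ne_zero (⟨0, 1, 0⟩ : Heis)
  have h1 := hAc _ hn1.2 _ hk1.2
  rw [heis_pow_x, heis_pow_y] at h1
  have h2 := congrArg Heis.z h1
  simp at h2
  omega

lemma heis_fg : Group.FG Heis := by
  rw [Group.fg_iff]
  refine ⟨{⟨1, 0, 0⟩, ⟨0, 1, 0⟩}, ?_, by simp⟩
  rw [Subgroup.eq_top_iff']
  intro g
  set K := Subgroup.closure ({⟨1, 0, 0⟩, ⟨0, 1, 0⟩} : Set Heis) with hK
  have ha : (⟨1, 0, 0⟩ : Heis) ∈ K := Subgroup.subset_closure (by simp)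
  have hb : (⟨0, 1, 0⟩ : Heis) ∈ K := Subgroup.subset_closure (by simp)
  have hc : (⟨0, 0, 1⟩ : Heis) ∈ K := by
    have h1 : (⟨0, 0, 1⟩ : Heis) = ⟨1, 0, 0⟩ * ⟨0, 1, 0⟩ * (⟨1, 0, 0⟩ : Heis)⁻¹ * (⟨0, 1, 0⟩ : Heis)⁻¹ := by
      ext <;> simp
    rw [h1]
    exact K.mul_mem (K.mul_mem (K.mul_mem ha hb) (K.inv_mem ha)) (K.inv_mem hb)
  have key : ∀ (h : Heis) (f : ℤ → Heis), f 0 = 1 → (∀ n, f (n + 1) = f n * h) → h ∈ K →
      ∀ n, f n ∈ K := by
    intro h f h0 hs hh n
    induction n using Int.induction_on with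
    | zero => rw [h0]; exact K.one_mem
    | succ n ih => rw [hs]; exact K.mul_mem ih hh
    | pred n ih =>
      have h1 := hs (-(n : ℤ) - 1)
      rw [sub_add_cancel] at h1
      have h2 : f (-(n : ℤ) - 1) = f (-(n : ℤ)) * h⁻¹ := by rw [h1, mul_inv_cancel_right]
      rw [h2]
      exact K.mul_mem ih (K.inv_mem hh)
  have e1 : g = ⟨0, g.y, 0⟩ * ⟨g.x, 0, 0⟩ * ⟨0, 0, g.z⟩ := by ext <;> simp
  rw [e1]
  refine K.mul_mem (K.mul_mem ?_ ?_) ?_
  · exact key ⟨0, 1, 0⟩ (fun n => ⟨0, n, 0⟩) rfl (by intro n; ext <;> simp) hb _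
  · exact key ⟨1, 0, 0⟩ (fun n => ⟨n, 0, 0⟩) rfl (by intro n; ext <;> simp) ha _
  · exact key ⟨0, 0, 1⟩ (fun n => ⟨0, 0, n⟩) rfl (by intro n; ext <;> simp) hc _

end HeisFacts

end Pool.Agent.Lib.MP_be5e04_al
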